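import Pool.Agent.Helper4.P11.StD
import Pool.Agent.Helper84.P11.D1

/-!
# Project P11 (levels `11^n`), module Om: the values at the origin (model: `Helper86/T7/M_Om.lean`)
-/

set_option autoImplicit false

namespace Pool.Agent.Helper67.P11

open Pool.Agent.Helper4.P11 Pool.Agent.Helper84.P11
open Pool.Agent.Helper2.P11 (Rel11)

/-- entries prime to eleven -/
private def good (L : List Tm) : Prop := ∀ t ∈ L, Gd t

private lemma good_nil : good [] := by
  intro t ht
  cases ht

private lemma good_app {L L' : List Tm} (h : good L) (h' : good L') : good (L ++ L') := by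
  intro t ht
  rcases List.mem_append.1 ht with h1 | h1
  · exact h t h1
  · exact h' t h1

private lemma good_scl (n : ℤ) {L : List Tm} (h : good L) : good (sclL n L) := by
  intro t ht
  unfold sclL at ht
  rw [List.mem_map] at ht
  obtain ⟨t', h1, rfl⟩ := ht
  exact h t' h1

private lemma good_mul {L L' : List Tm} (h : good L) (h' : good L') : good (mulL L L') :=
  ((opm 0 0).1 L L' h h').1

private lemma good_id (i f : Fin 3) : good (id3 i f) := by
  unfold id3
  split_ifs
  · intro t ht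
    rw [List.mem_singleton] at ht
    subst ht
    exact ⟨by norm_num, by norm_num⟩
  · exact good_nil

private lemma good_TM (hg : TCeG) {l : ℕ} (hl : l ∈ PrM) (i f : Fin 3) : good (TM l i f) :=
  fun t ht => hg.1 l hl i f t ht

private lemma good_mm {A B : Fin 3 → Fin 3 → List Tm} (hA : ∀ i f, good (A i f))
    (hB : ∀ i f, good (B i f)) (i f : Fin 3) : good (mm3 A B i f) := by
  unfold mm3
  exact good_app (good_app (good_mul (hA _ _) (hB _ _)) (good_mul (hA _ _) (hB _ _)))
    (good_mul (hA _ _) (hB _ _))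

private lemma good_wL (hg : TCeG) : ∀ ls : List ℕ, (∀ l ∈ ls, l ∈ PrM) →
    ∀ i f : Fin 3, good (wL ls i f)
  | [], _ => good_id
  | [l], h => good_TM hg (h l List.mem_cons_self)
  | l :: l' :: ls, h => fun i f =>
    good_mm (A := TM l) (B := wL (l' :: ls)) (good_TM hg (h l List.mem_cons_self))
      (good_wL hg (l' :: ls) fun x hx => h x (List.mem_cons_of_mem _ hx)) i f

private lemma good_cL (hg : TCeG) (W : List (ℤ × List ℕ)) (hW : ∀ t ∈ W, ∀ l ∈ t.2, l ∈ PrM)
    (i f : Fin 3) : good (cL W i f) := by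
  intro t ht
  unfold cL at ht
  rw [List.mem_flatMap] at ht
  obtain ⟨w, hw, h⟩ := ht
  exact good_scl _ (good_wL hg w.2 (hW w hw) i f) t h

private lemma OW_ok (c : ℕ) (hc : c ≤ 9) : ∀ t ∈ OW c, ∀ l ∈ t.2, l ∈ PrM := by
  interval_cases c <;> decide

private lemma nOM_le (c : ℕ) (hc : c ≤ 9) : nOM c ≤ 10 := by
  interval_cases c <;> decide

private lemma good_BOM (hg : TCeG) (c : ℕ) (hc : c ≤ 9) (f : Fin 3) : good (BOM c f) := by
  unfold BOM
  exact good_app (good_cL hg (OW c) (OW_ok c hc) 0 f)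
    (good_scl _ (good_mul (hg.2.2 c hc) (hg.2.1 f).1))

private lemma cast11 {S C : ℤ} (h : (11 : ℤ) ∣ S - C) : (S : ZMod 11) = (C : ZMod 11) := by
  have h1 := (ZMod.intCast_zmod_eq_zero_iff_dvd (S - C) 11).2 (by exact_mod_cast h)
  push_cast at h1
  exact sub_eq_zero.1 h1

/-- multiples of the relation -/
private lemma mul_rel (hr : TRll) (hg : TCeG) {r s : ℕ} (F : Fin 3 → Fn11 (11 ^ r) (11 ^ s))
    (hR : Rel11 F) (U : List Tm) (hU : good U) :
    ∑ f : Fin 3, opL (sclL (-1) (mulL U (relM f))) (F f) = 0 := by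
  have h2 : ∀ f : Fin 3, opL (sclL (-1) (mulL U (relM f))) (F f) =
      (((-1 : ℤ)) : ZMod 11) • (opL U) (opL (relM f) (F f)) := by
    intro f
    rw [(opm r s).2.1, ((opm r s).1 U (relM f) hU fun t ht => (hg.2.1 f).1 t ht).2]
    rfl
  rw [Finset.sum_congr rfl fun f _ => h2 f, ← Finset.smul_sum, ← map_sum, hr r s F hR, map_zero,
    smul_zero]

private lemma sumdiag (n : ℕ) (hn : n ≤ 10) (q : ℕ → ZMod 11) (D : ℕ → ℕ → ZMod 11) :
    ∑ i ∈ Finset.range 11, ∑ j ∈ Finset.range 11, (if i + j = n then q j else 0) * D i j =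
      ∑ j ∈ Finset.range (n + 1), q j * D (n - j) j := by
  rw [Finset.sum_comm]
  have h1 : ∀ j ∈ Finset.range 11,
      ∑ i ∈ Finset.range 11, (if i + j = n then q j else 0) * D i j =
      if j < n + 1 then q j * D (n - j) j else 0 := by
    intro j hj
    rw [Finset.mem_range] at hj
    split_ifs with h
    · rw [Finset.sum_eq_single (n - j)]
      · rw [if_pos (by omega)]
      · intro i _ hi
        rw [if_neg (by omega), zero_mul]
      · intro h2
        exact absurd (Finset.mem_range.2 (by omega)) h2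
    · refine Finset.sum_eq_zero fun i _ => ?_
      rw [if_neg (by omega), zero_mul]
  rw [Finset.sum_congr rfl h1, ← Finset.sum_filter]
  refine Finset.sum_congr ?_ fun _ _ => rfl
  ext j
  simp only [Finset.mem_filter, Finset.mem_range]
  omega

/-- OM. -/
theorem hOm (hr : TRll) (hg : TCeG) (hc : TCeO) : TOm := by
  intro r s c F hc9 hR h
  obtain ⟨_, _, _, _, hmono, _⟩ := low0 r s
  have hBO : ∑ f : Fin 3, opL (cL (OW c) 0 f) (F f) = ∑ f : Fin 3, opL (BOM c f) (F f) := by
    have h2 : ∀ f : Fin 3, opL (BOM c f) (F f) = opL (cL (OW c) 0 f) (F f) +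
        opL (sclL (-1) (mulL (mOM c) (relM f))) (F f) := by
      intro f
      unfold BOM
      rw [(opm r s).2.2, LinearMap.add_apply]
    rw [Finset.sum_congr rfl fun f _ => h2 f, Finset.sum_add_distrib,
      mul_rel hr hg F hR (mOM c) (hg.2.2 c hc9), add_zero]
  have hn := nOM_le c hc9
  have hv : ∀ f : Fin 3, (opL (BOM c f) (F f) : Fn11 (11 ^ r) (11 ^ s)) 0 0 =
      (MoM c f.val (F f) : Fn11 (11 ^ r) (11 ^ s)) 0 0 := by
    intro f
    have h4 : F f ∈ (Wd11 10 : Submodule (ZMod 11) (Fn11 (11 ^ r) (11 ^ s))) :=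
      hmono (nOM c : ℤ) 10 (by exact_mod_cast hn) (h f)
    rw [val11 r s _ (good_BOM hg c hc9 f) (F f) h4]
    have e1 : ∀ i ∈ Finset.range 11, ∀ j ∈ Finset.range 11,
        ((nS (BOM c f) i j : ℤ) : ZMod 11) *
          ((dX ^ i * dY ^ j : Module.End (ZMod 11) (Fn11 (11 ^ r) (11 ^ s))) (F f)) 0 0 =
        (if i + j = nOM c then ((qOM c f.val j : ℤ) : ZMod 11) else 0) *
          ((dX ^ i * dY ^ j : Module.End (ZMod 11) (Fn11 (11 ^ r) (11 ^ s))) (F f)) 0 0 := by
      intro i hi j hj
      rw [Finset.mem_range] at hi hj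
      by_cases hij : i + j ≤ nOM c
      · rw [cast11 (hc c hc9 f i hi j hj hij)]
        push_cast
        rfl
      · rw [h f i j (by omega)]
        simp
    rw [Finset.sum_congr rfl fun i hi => Finset.sum_congr rfl fun j hj => e1 i hi j hj,
      sumdiag (nOM c) hn (fun j => ((qOM c f.val j : ℤ) : ZMod 11))
        (fun i j => ((dX ^ i * dY ^ j : Module.End (ZMod 11) (Fn11 (11 ^ r) (11 ^ s))) (F f)) 0 0)]
    unfold MoM
    rw [LinearMap.sum_apply, Finset.sum_apply, Finset.sum_apply]
    rfl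
  rw [hBO, Finset.sum_apply, Finset.sum_apply]
  exact Finset.sum_congr rfl fun f _ => hv f

end Pool.Agent.Helper67.P11
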